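import Pool.Agent.Run7.h431.AC.GR

set_option autoImplicit false

/-!
# Piece AREA
-/

namespace Pool.Agent.Run7.h431.AC

open MeasureTheory Complex Set Filter Topology Metric Pool.Agent.Run7.h104.AC

lemma normSq_one_add (z : ℂ) : ‖1 + z‖ ^ 2 = (1 + ‖z‖ ^ 2) + 2 * z.re := by
  rw [← Complex.normSq_eq_norm_sq, ← Complex.normSq_eq_norm_sq, Complex.normSq_apply, Complex.normSq_apply]
  simp only [add_re, one_re, add_im, one_im, zero_add]
  ring

lemma int_re : ∫ z in ball (0 : ℂ) 1, 2 * z.re = 0 := by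
  have h1 : ∫ z in ball (0 : ℂ) 1, 2 * z.re = ∫ z, (ball (0 : ℂ) 1).indicator (fun z => 2 * z.re) z :=
    (integral_indicator measurableSet_ball).symm
  have h2 : ∫ z, (ball (0 : ℂ) 1).indicator (fun z => 2 * z.re) z
      = ∫ z, (ball (0 : ℂ) 1).indicator (fun z => 2 * z.re) (-z) :=
    (integral_neg_eq_self _ _).symm
  have h3 : (fun z : ℂ => (ball (0 : ℂ) 1).indicator (fun z : ℂ => 2 * z.re) (-z))
      = fun z => -((ball (0 : ℂ) 1).indicator (fun z : ℂ => 2 * z.re) z) := by
    funext z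
    by_cases hz : z ∈ ball (0 : ℂ) 1
    · have hz' : -z ∈ ball (0 : ℂ) 1 := by simpa using hz
      rw [indicator_of_mem hz, indicator_of_mem hz', neg_re]
      ring
    · have hz' : -z ∉ ball (0 : ℂ) 1 := by simpa using hz
      rw [indicator_of_notMem hz, indicator_of_notMem hz', neg_zero]
  rw [h3, integral_neg] at h2
  rw [h1]
  linarith

lemma int_rad : ∫ z in ball (0 : ℂ) 1, (1 + ‖z‖ ^ 2) = 3 * Real.pi / 2 := by
  have h1 : ∫ z in ball (0 : ℂ) 1, (1 + ‖z‖ ^ 2) = ∫ z : ℂ, (Iio (1 : ℝ)).indicator (fun r => 1 + r ^ 2) ‖z‖ := by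
    rw [← integral_indicator measurableSet_ball]
    congr 1
    funext z
    by_cases hz : z ∈ ball (0 : ℂ) 1
    · have : ‖z‖ ∈ Iio (1 : ℝ) := by simpa using hz
      rw [indicator_of_mem hz, indicator_of_mem this]
    · have : ‖z‖ ∉ Iio (1 : ℝ) := by simpa using hz
      rw [indicator_of_notMem hz, indicator_of_notMem this]
  rw [h1, integral_fun_norm_addHaar (μ := (volume : Measure ℂ))]
  have h2 : ∫ y in Ioi (0 : ℝ), y ^ (Module.finrank ℝ ℂ - 1) • (Iio (1 : ℝ)).indicator (fun r => 1 + r ^ 2) y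
      = 3 / 4 := by
    rw [Complex.finrank_real_complex]
    have h3 : ∀ y : ℝ, y ^ (2 - 1) • (Iio (1 : ℝ)).indicator (fun r => 1 + r ^ 2) y
        = (Iio (1 : ℝ)).indicator (fun r => r * (1 + r ^ 2)) y := by
      intro y
      by_cases hy : y ∈ Iio (1 : ℝ)
      · rw [indicator_of_mem hy, indicator_of_mem hy]
        simp
      · rw [indicator_of_notMem hy, indicator_of_notMem hy]
        simp
    simp only [h3]
    rw [setIntegral_indicator measurableSet_Iio, Ioi_inter_Iio, ← integral_Ioc_eq_integral_Ioo,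
      ← intervalIntegral.integral_of_le zero_le_one]
    have h4 : ∀ x ∈ uIcc (0 : ℝ) 1, HasDerivAt (fun r : ℝ => r ^ 2 / 2 + r ^ 4 / 4) (x * (1 + x ^ 2)) x := by
      intro x _
      have := ((hasDerivAt_pow 2 x).div_const 2).add ((hasDerivAt_pow 4 x).div_const 4)
      convert! this using 1
      simp
      ring
    rw [intervalIntegral.integral_eq_sub_of_hasDerivAt h4 (by
      apply Continuous.intervalIntegrable
      fun_prop)]
    norm_num
  rw [h2, Complex.finrank_real_complex]
  have h5 : (volume : Measure ℂ).real (ball 0 1) = Real.pi := by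
    rw [Measure.real, Complex.volume_ball]
    simp
  rw [h5]
  simp only [nsmul_eq_mul, smul_eq_mul]
  push_cast
  ring

lemma integrableOn_ball_of_cont {f : ℂ → ℝ} (hf : Continuous f) (r : ℝ) : IntegrableOn f (ball 0 r) :=
  (hf.continuousOn.integrableOn_compact (isCompact_closedBall 0 r)).mono_set ball_subset_closedBall

lemma int_all : ∫ z in ball (0 : ℂ) 1, ‖1 + z‖ ^ 2 = 3 * Real.pi / 2 := by
  simp only [normSq_one_add]
  rw [integral_add, int_re, int_rad, add_zero]
  · exact integrableOn_ball_of_cont (by fun_prop) 1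
  · exact integrableOn_ball_of_cont (by fun_prop) 1

lemma norm_Kb_ge {t : ℂ} (ht : t ∈ ball (0 : ℂ) 1) : ‖t‖ / 4 ≤ ‖Kb t‖ := by
  have h1 : ‖t‖ < 1 := by simpa using ht
  have h2 : ‖1 - t‖ ≤ 2 := by
    calc ‖1 - t‖ ≤ ‖(1 : ℂ)‖ + ‖t‖ := norm_sub_le _ _
      _ ≤ 2 := by rw [norm_one]; linarith
  have h3 : 0 < ‖1 - t‖ := by
    rw [norm_pos_iff, sub_ne_zero]
    rintro rfl
    simp at h1
  rw [Kb, norm_div, norm_pow]
  have h4 : ‖1 - t‖ ^ 2 ≤ 4 := by nlinarith
  exact div_le_div_of_nonneg_left (norm_nonneg t) (by positivity) h4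

lemma Mset_sub (η : ℝ) : Mset η ⊆ ball 0 (4 * η) := by
  rintro t ⟨ht, ht2⟩
  rw [mem_ofPred_eq] at ht2
  have := norm_Kb_ge ht
  rw [mem_ball_zero_iff]
  linarith

lemma measurable_Mset (η : ℝ) : MeasurableSet (Mset η) :=
  measurableSet_ball.inter (measurableSet_lt measurable_Kb.norm measurable_const)

theorem t_AREA (hCV : S_CV) (hRHO : S_RHO) : S_AREA := by
  have hinj := hRHO.1
  have key : ∀ E : Set ℂ, E ⊆ ball 0 1 → MeasurableSet E → MeasurableSet (Cd '' E) ∧
      volume (Cd '' E) = ∫⁻ z in E, ENNReal.ofReal (‖1 + z‖ ^ 2) := by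
    intro E hE hm
    obtain ⟨h1, h2⟩ := hCV (ball 0 1) Cd isOpen_ball differentiable_Cd.differentiableOn hinj E hE hm
    refine ⟨h1, ?_⟩
    have := h2 (fun _ => 1)
    simp only [lintegral_one, Measure.restrict_apply MeasurableSet.univ, univ_inter, mul_one, deriv_Cd] at this
    exact this
  refine ⟨(key _ Subset.rfl measurableSet_ball).1, ?_, fun η => ⟨measurable_Mset η,
    (key _ inter_subset_left (measurable_Mset η)).1⟩, ?_⟩
  · change volume (Cd '' ball 0 1) = _
    rw [(key _ Subset.rfl measurableSet_ball).2, ← int_all, ofReal_integral_eq_lintegral_ofReal]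
    · exact integrableOn_ball_of_cont (by fun_prop) 1
    · exact Eventually.of_forall (fun z => by positivity)
  · have hb : ∀ η : ℝ, volume (Cd '' Mset η) ≤ 4 * (ENNReal.ofReal (4 * η) ^ 2 * NNReal.pi) := by
      intro η
      rw [(key (Mset η) inter_subset_left (measurable_Mset η)).2]
      calc ∫⁻ z in Mset η, ENNReal.ofReal (‖1 + z‖ ^ 2) ≤ ∫⁻ z in Mset η, 4 := by
            refine setLIntegral_mono measurable_const ?_
            rintro z ⟨hz, _⟩
            have h1 : ‖z‖ < 1 := by simpa using hz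
            have h2 : ‖1 + z‖ ≤ 2 := by
              calc ‖1 + z‖ ≤ ‖(1 : ℂ)‖ + ‖z‖ := norm_add_le _ _
                _ ≤ 2 := by rw [norm_one]; linarith
            have h3 : ‖1 + z‖ ^ 2 ≤ 4 := by nlinarith [norm_nonneg (1 + z)]
            calc ENNReal.ofReal (‖1 + z‖ ^ 2) ≤ ENNReal.ofReal 4 := ENNReal.ofReal_le_ofReal h3
              _ = 4 := by norm_num
        _ = 4 * volume (Mset η) := by rw [setLIntegral_const]
        _ ≤ 4 * volume (ball (0 : ℂ) (4 * η)) := by
            gcongr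
            exact Mset_sub η
        _ = _ := by rw [Complex.volume_ball]
    have hlim : Tendsto (fun η : ℝ => 4 * (ENNReal.ofReal (4 * η) ^ 2 * NNReal.pi)) (𝓝[>] 0) (𝓝 0) := by
      have h1 : Continuous (fun η : ℝ => 4 * (ENNReal.ofReal (4 * η) ^ 2 * NNReal.pi)) := by
        refine ENNReal.continuous_const_mul (by norm_num) |>.comp ?_
        refine (ENNReal.continuous_mul_const ENNReal.coe_ne_top).comp ?_
        refine (ENNReal.continuous_pow 2).comp ?_
        exact ENNReal.continuous_ofReal.comp (by fun_prop)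
      have h2 := h1.tendsto 0
      simp only [mul_zero, ENNReal.ofReal_zero, ne_eq, OfNat.ofNat_ne_zero, not_false_eq_true, zero_pow, zero_mul] at h2
      exact h2.mono_left nhdsWithin_le_nhds
    exact tendsto_of_tendsto_of_tendsto_of_le_of_le tendsto_const_nhds hlim (fun _ => zero_le) hb

end Pool.Agent.Run7.h431.AC
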