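import Pool.Agent.Run7.h104.AC.Defs

set_option autoImplicit false

/-!
# Piece GR
-/

namespace Pool.Agent.Run7.h431.AC

open MeasureTheory Complex Set Filter Topology Metric Pool.Agent.Run7.h104.AC

lemma deriv_Cd (t : ℂ) : deriv Cd t = 1 + t := by
  have : HasDerivAt Cd (1 + 2 * t / 2) t := by
    have h1 : HasDerivAt (fun t : ℂ => t ^ 2 / 2) (2 * t / 2) t := by
      simpa using (hasDerivAt_pow 2 t).div_const 2
    exact (hasDerivAt_id t).add h1
  rw [this.deriv]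
  ring

lemma differentiable_Cd : Differentiable ℂ Cd := by
  unfold Cd
  fun_prop

lemma measurable_Kb : Measurable Kb := by
  unfold Kb
  exact measurable_id.div ((measurable_const.sub measurable_id).pow_const 2)

theorem t_GR (hCV : S_CV) (hRHO : S_RHO) (hKOE : S_KOE) : S_GR := by
  intro η hη
  have hinj := hRHO.1
  have hset : G \ Cd '' Mset η = Cd '' (ball 0 1 ∩ {z | η ≤ ‖Kb z‖}) := by
    ext w
    constructor
    · rintro ⟨⟨t, ht, rfl⟩, hn⟩
      refine ⟨t, ⟨ht, ?_⟩, rfl⟩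
      rw [mem_ofPred_eq]
      by_contra hc
      refine hn ⟨t, ⟨ht, ?_⟩, rfl⟩
      rw [mem_ofPred_eq]
      exact not_le.1 hc
    · rintro ⟨t, ⟨ht, ht2⟩, rfl⟩
      refine ⟨⟨t, ht, rfl⟩, ?_⟩
      rintro ⟨s, ⟨hs, hs2⟩, hst⟩
      have := hinj hs ht hst
      subst this
      rw [mem_ofPred_eq] at hs2 ht2
      exact absurd hs2 (not_lt.2 ht2)
  have hm : MeasurableSet (ball (0 : ℂ) 1 ∩ {z | η ≤ ‖Kb z‖}) :=
    measurableSet_ball.inter (measurableSet_le measurable_const measurable_Kb.norm)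
  obtain ⟨_, h2⟩ := hCV (ball 0 1) Cd isOpen_ball differentiable_Cd.differentiableOn hinj
    (ball (0 : ℂ) 1 ∩ {z | η ≤ ‖Kb z‖}) inter_subset_left hm
  rw [hset, h2, ← hKOE η hη]
  refine setLIntegral_congr_fun hm ?_
  rintro z ⟨hz1, hz2⟩
  have hz0 : z ≠ 0 := by
    rintro rfl
    simp only [mem_ofPred_eq, Kb, zero_div, norm_zero] at hz2
    exact absurd hη (not_lt.2 hz2)
  have hz1' : ‖z‖ < 1 := by simpa using hz1
  change ENNReal.ofReal (‖deriv Cd z‖ ^ 2) * ENNReal.ofReal (rho (Cd z)) = ENNReal.ofReal (Rw z)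
  rw [deriv_Cd, hRHO.2.1 z hz0 hz1', ← ENNReal.ofReal_mul (by positivity), Rw, div_eq_mul_inv]

end Pool.Agent.Run7.h431.AC
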